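import Pool.Agent.Helper12.NK.St
import Pool.Agent.Helper41.AJ.M_CON

set_option autoImplicit false

namespace Pool.Agent.Helper45.NK

open Pool.Agent.Helper12.NK
open Pool.Agent.Helper51.AJ (Con Tch con_nonempty con_singleton con_union)

/-- a maximal connected set between `K` and `Z` -/
private lemma par_max {V : Type} [Finite V] (G : SimpleGraph V) (K Z : Set V) (hK : Con G K)
    (hKZ : K ⊆ Z) : ∃ M : Set V, K ⊆ M ∧ M ⊆ Z ∧ Con G M ∧
      ∀ N : Set V, N ⊆ Z → Con G N → (M ∩ N).Nonempty → N ⊆ M := by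
  obtain ⟨M, hM⟩ := (Set.toFinite {M : Set V | K ⊆ M ∧ M ⊆ Z ∧ Con G M}).exists_maximal
    ⟨K, subset_rfl, hKZ, hK⟩
  refine ⟨M, hM.1.1, hM.1.2.1, hM.1.2.2, fun N hN hc hne => ?_⟩
  have hu : Con G (M ∪ N) := SimpleGraph.induce_union_connected hM.1.2.2.preconnected hc.preconnected hne
  have := hM.2 (y := M ∪ N) ⟨hM.1.1.trans Set.subset_union_left, Set.union_subset hM.1.2.1 hN, hu⟩
    Set.subset_union_left
  exact Set.subset_union_right.trans this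

theorem hPAR : StPAR := by
  intro V _ G W K L hW hK hL hKW hLW hKL
  have hC1 := (Pool.Agent.Helper41.AJ.hCON V G W hW).1
  have hKZ : K ⊆ W \ L := fun x hx => ⟨hKW hx, fun hxL => (Set.disjoint_left.1 hKL) hx hxL⟩
  obtain ⟨K', hKK', hK'Z, hK'c, hK'm⟩ := par_max G K (W \ L) hK hKZ
  have hLL' : L ⊆ W \ K' := fun x hx => ⟨hLW hx, fun hxK => (hK'Z hxK).2 hx⟩
  have hK'W : K' ⊆ W := fun x hx => (hK'Z hx).1
  have hK'ne : K'.Nonempty := con_nonempty hK'c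
  have hLne : L.Nonempty := con_nonempty hL
  have hK'neW : K' ≠ W := by
    rintro rfl
    obtain ⟨x, hx⟩ := hLne
    exact (hLL' hx).2 (hLW hx)
  refine ⟨K', W \ K', hKK', hLL', Set.disjoint_sdiff_right, Set.union_sdiff_cancel hK'W, hK'c, ?_,
    hC1 K' hK'W hK'ne hK'neW⟩
  obtain ⟨M, hLM, hMZ, hMc, hMm⟩ := par_max G L (W \ K') hL hLL'
  by_cases hMe : W \ K' ⊆ M
  · rw [← Set.Subset.antisymm hMZ hMe]
    exact hMc
  exfalso
  rw [Set.not_subset] at hMe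
  obtain ⟨x, hx, hxM⟩ := hMe
  obtain ⟨N, hxN, hNZ, hNc, hNm⟩ := par_max G {x} (W \ K') (con_singleton G x)
    (Set.singleton_subset_iff.2 hx)
  have hxN' : x ∈ N := hxN rfl
  have hMN : ∀ z ∈ M, z ∉ N := by
    intro z hz hzN
    exact hxM (hMm N hNZ hNc ⟨z, hz, hzN⟩ hxN')
  have hNW : N ≠ W := by
    rintro rfl
    obtain ⟨z, hz⟩ := hK'ne
    exact (hNZ (hK'W hz)).2 hz
  obtain ⟨n, hn, w, ⟨hwW, hwN⟩, hadj⟩ := hC1 N (fun z hz => (hNZ hz).1) ⟨x, hxN'⟩ hNW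
  by_cases hwK : w ∈ K'
  · have hun : Con G (N ∪ K') := con_union hNc hK'c ⟨n, hn, w, hwK, hadj⟩
    have hsub : N ∪ K' ⊆ W \ L := by
      refine Set.union_subset (fun z hz => ⟨(hNZ hz).1, fun hzL => hMN z (hLM hzL) hz⟩) hK'Z
    obtain ⟨z, hz⟩ := hK'ne
    have h1 := hK'm (N ∪ K') hsub hun ⟨z, hz, Or.inr hz⟩
    exact hx.2 (h1 (Or.inl hxN'))
  · have hun : Con G (N ∪ {w}) := con_union hNc (con_singleton G w) ⟨n, hn, w, rfl, hadj⟩
    have hsub : N ∪ {w} ⊆ W \ K' := Set.union_subset hNZ (Set.singleton_subset_iff.2 ⟨hwW, hwK⟩)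
    have h1 := hNm (N ∪ {w}) hsub hun ⟨x, hxN', Or.inl hxN'⟩
    exact hwN (h1 (Or.inr rfl))

end Pool.Agent.Helper45.NK
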